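import Mathlib

namespace Pool.Agent.Lib.Kahler

open Set MeasureTheory
open scoped ContDiff

lemma exists_flat_bump {ε : ℝ} (hε : 0 < ε) : ∃ F : ℝ → ℝ, ContDiff ℝ ∞ F ∧ HasCompactSupport F ∧
    tsupport F ⊆ Iio 0 ∧ 0 < ∫ s, F s ^ 2 ∧
    ∀ a : ℝ, ∫ s, (a * F s + deriv F s) ^ 2 ≤ (a ^ 2 + ε) * ∫ s, F s ^ 2 := by
  obtain ⟨χ, h1, h2, h3, -, h5⟩ :=
    exists_contDiff_tsupport_subset (n := ⊤) (Iio_mem_nhds (show (-1 : ℝ) < 0 by norm_num))
  have hA : 0 < ∫ s, χ s ^ 2 := by
    refine (h3.continuous.pow 2).integral_pos_of_hasCompactSupport_nonneg_nonzero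
      (h2.comp_left (g := fun x : ℝ => x ^ 2) (by simp)) (fun s => sq_nonneg _) (x := -1) ?_
    simp [h5]
  set A := ∫ s, χ s ^ 2
  set B := ∫ s, deriv χ s ^ 2 with hB
  have hB0 : 0 ≤ B := integral_nonneg fun s => sq_nonneg _
  set L : ℝ := 1 + B / (ε * A) with hL
  have hL1 : 1 ≤ L := by rw [hL]; have : 0 ≤ B / (ε * A) := by positivity
                         linarith
  have hL0 : 0 < L := by linarith
  have hBL : B ≤ ε * A * L ^ 2 := by
    have : B ≤ ε * A * L := by rw [hL]; field_simp; nlinarith [mul_pos hε hA]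
    nlinarith [mul_pos (mul_pos hε hA) hL0]
  let F : ℝ → ℝ := fun s => χ (s / L)
  have hF : ContDiff ℝ ∞ F := h3.comp (contDiff_id.div_const L)
  have hc : HasCompactSupport F :=
    h2.comp_homeomorph (Homeomorph.mulRight₀ L⁻¹ (inv_ne_zero hL0.ne'))
  have hd : ∀ s, deriv F s = deriv χ (s / L) / L := by
    intro s
    have := ((h3.differentiable (by simp) (s / L)).hasDerivAt.comp s
      ((hasDerivAt_id s).div_const L)).deriv
    rw [show deriv χ (s / L) / L = deriv χ (s / L) * (1 / L) by ring]
    exact this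
  have e1 : ∫ s, F s ^ 2 = L * A := by
    rw [Measure.integral_comp_div (fun s => χ s ^ 2) L, abs_of_pos hL0, smul_eq_mul]
  have e2 : ∫ s, deriv F s ^ 2 = B / L := by
    simp only [hd, div_pow]
    rw [integral_div, Measure.integral_comp_div (fun s => deriv χ s ^ 2) L, abs_of_pos hL0,
      smul_eq_mul, ← hB]
    field_simp
  have hF' : Continuous (deriv F) := hF.continuous_deriv (by simp)
  have hFc : Continuous F := hF.continuous
  have i1 : Integrable fun s => F s ^ 2 :=
    Continuous.integrable_of_hasCompactSupport (f := fun s => F s ^ 2) (by fun_prop)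
      (hc.comp_left (g := fun x : ℝ => x ^ 2) (by simp))
  have i2 : Integrable fun s => deriv F s ^ 2 :=
    Continuous.integrable_of_hasCompactSupport (f := fun s => deriv F s ^ 2) (by fun_prop)
      (hc.deriv.comp_left (g := fun x : ℝ => x ^ 2) (by simp))
  have i3 : Integrable fun s => 2 * F s * deriv F s :=
    ((continuous_const.mul hF.continuous).mul hF').integrable_of_hasCompactSupport
      hc.deriv.mul_left
  have e3 : ∫ s, 2 * F s * deriv F s = 0 := by
    refine integral_eq_zero_of_hasDerivAt_of_integrable (f := fun s => F s ^ 2) (fun s => ?_) i3 i1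
    have := (hF.differentiable (by simp) s).hasDerivAt.fun_pow 2
    simp only [Nat.cast_ofNat, Nat.add_one_sub_one, pow_one] at this
    exact this
  refine ⟨F, hF, hc, ?_, by rw [e1]; positivity, fun a => ?_⟩
  · intro s hs
    have hsub : tsupport F ⊆ (fun s => s / L) ⁻¹' tsupport χ := by
      refine closure_minimal (fun x hx => subset_tsupport χ hx) ?_
      exact (isClosed_tsupport χ).preimage (by fun_prop)
    have := h1 (hsub hs)
    simpa [div_neg_iff, hL0, hL0.not_gt] using this
  · have : (fun s => (a * F s + deriv F s) ^ 2) =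
        fun s => a ^ 2 * F s ^ 2 + (a * (2 * F s * deriv F s) + deriv F s ^ 2) := by
      funext s; ring
    have i4 : Integrable fun s => a * (2 * F s * deriv F s) + deriv F s ^ 2 :=
      (i3.const_mul a).add i2
    rw [this, integral_add (i1.const_mul _) i4, integral_add (i3.const_mul a) i2,
      integral_const_mul, integral_const_mul, e3, e1, e2]
    have : B / L ≤ ε * (L * A) := by rw [div_le_iff₀ hL0]; nlinarith
    nlinarith

end Pool.Agent.Lib.Kahler
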