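import Pool.Agent.Lib.Kahler.Spec

namespace Pool.Agent.Lib.Kahler

open Set Filter Topology Complex

variable {n : ℕ}

lemma dz_add {f h : (Fin n → ℂ) → ℂ} {z : Fin n → ℂ} (hf : DifferentiableAt ℝ f z)
    (hh : DifferentiableAt ℝ h z) (j : Fin n) :
    dz j (fun w => f w + h w) z = dz j f z + dz j h z := by
  rw [dz_of (hf.hasFDerivAt.fun_add hh.hasFDerivAt), dz, dz]
  simp only [add_apply]; ring

lemma dz_mul {f h : (Fin n → ℂ) → ℂ} {z : Fin n → ℂ} (hf : DifferentiableAt ℝ f z)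
    (hh : DifferentiableAt ℝ h z) (j : Fin n) :
    dz j (fun w => f w * h w) z = dz j f z * h z + f z * dz j h z := by
  rw [dz_of (hf.hasFDerivAt.fun_mul hh.hasFDerivAt), dz, dz]
  simp only [add_apply, smul_apply, smul_eq_mul]; ring

lemma dz_const (c : ℂ) (z : Fin n → ℂ) (j : Fin n) : dz j (fun _ => c) z = 0 := by simp [dz]

lemma dz_coord (z : Fin n → ℂ) (j k : Fin n) :
    dz j (fun w => w k) z = if j = k then 1 else 0 := by
  have : HasFDerivAt (fun w : Fin n → ℂ => w k)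
      (ContinuousLinearMap.proj (R := ℝ) (φ := fun _ : Fin n => ℂ) k) z := hasFDerivAt_apply k z
  rw [dz_of this]
  by_cases h : j = k
  · subst h; simp
  · simp [h, Ne.symm h]

lemma diff_conj_coord (z : Fin n → ℂ) (k : Fin n) :
    HasFDerivAt (fun w : Fin n → ℂ => (starRingEnd ℂ) (w k))
      ((conjCLE : ℂ →L[ℝ] ℂ).comp
        (ContinuousLinearMap.proj (R := ℝ) (φ := fun _ : Fin n => ℂ) k)) z :=
  (conjCLE : ℂ →L[ℝ] ℂ).hasFDerivAt.comp z (hasFDerivAt_apply k z)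

lemma dz_conj_coord (z : Fin n → ℂ) (j k : Fin n) :
    dz j (fun w => (starRingEnd ℂ) (w k)) z = 0 := by
  rw [dz_of (diff_conj_coord z k)]
  by_cases h : j = k
  · subst h; simp
  · simp [Ne.symm h]

/-- squared Euclidean norm -/
noncomputable def uu (z : Fin n → ℂ) : ℝ := ∑ j, ‖z j‖ ^ 2

lemma uu_eq (z : Fin n → ℂ) : uu z = ∑ j, ((z j).re * (z j).re + (z j).im * (z j).im) := by
  simp only [uu, Complex.sq_norm, normSq_apply]

lemma uu_coe (z : Fin n → ℂ) : (uu z : ℂ) = ∑ j, (starRingEnd ℂ) (z j) * z j := by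
  simp only [uu, ofReal_sum, conj_mul', ofReal_pow]

lemma contDiff_uu {m : WithTop ℕ∞} : ContDiff ℝ m (uu : (Fin n → ℂ) → ℝ) := by
  have : (uu : (Fin n → ℂ) → ℝ) = fun z => ∑ j, (reCLM (z j) * reCLM (z j) +
    imCLM (z j) * imCLM (z j)) := funext uu_eq
  rw [this]
  fun_prop

lemma fderiv_uu (z v : Fin n → ℂ) :
    fderiv ℝ uu z v = 2 * (∑ j, (starRingEnd ℂ) (z j) * v j).re := by
  have e : (uu : (Fin n → ℂ) → ℝ) = fun z => ∑ j, ((z j).re * (z j).re +
    (z j).im * (z j).im) := funext uu_eq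
  have hre : ∀ j, HasFDerivAt (fun w : Fin n → ℂ => (w j).re)
      (reCLM.comp (ContinuousLinearMap.proj (R := ℝ) (φ := fun _ : Fin n => ℂ) j)) z :=
    fun j => reCLM.hasFDerivAt.comp z (hasFDerivAt_apply j z)
  have him : ∀ j, HasFDerivAt (fun w : Fin n → ℂ => (w j).im)
      (imCLM.comp (ContinuousLinearMap.proj (R := ℝ) (φ := fun _ : Fin n => ℂ) j)) z :=
    fun j => imCLM.hasFDerivAt.comp z (hasFDerivAt_apply j z)
  have := HasFDerivAt.fun_sum (u := Finset.univ) fun j _ =>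
    ((hre j).fun_mul (hre j)).fun_add ((him j).fun_mul (him j))
  rw [e, this.fderiv, re_sum, Finset.mul_sum, sum_apply]
  refine Finset.sum_congr rfl fun j _ => ?_
  simp
  ring

lemma fderiv_uu_one (z : Fin n → ℂ) (j : Fin n) :
    fderiv ℝ uu z (Pi.single j 1) = 2 * (z j).re := by
  rw [fderiv_uu, Finset.sum_eq_single j]
  · simp
  · intro b _ hb; simp [hb]
  · simp

lemma fderiv_uu_I (z : Fin n → ℂ) (j : Fin n) :
    fderiv ℝ uu z (Pi.single j I) = 2 * (z j).im := by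
  rw [fderiv_uu, Finset.sum_eq_single j]
  · simp
  · intro b _ hb; simp [hb]
  · simp

lemma hasFDerivAt_rad {F : ℝ → ℝ} {F' : ℝ} {z : Fin n → ℂ} (h : HasDerivAt F F' (uu z)) :
    HasFDerivAt (fun w => F (uu w)) (F' • fderiv ℝ uu z) z :=
  h.comp_hasFDerivAt z ((contDiff_uu (m := 1)).differentiable one_ne_zero z).hasFDerivAt

lemma diff_rad {F : ℝ → ℝ} {F' : ℝ} {z : Fin n → ℂ} (h : HasDerivAt F F' (uu z)) :
    DifferentiableAt ℝ (fun w => (F (uu w) : ℂ)) z :=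
  (ofRealCLM.hasFDerivAt.comp z (hasFDerivAt_rad h)).differentiableAt

lemma dz_rad {F : ℝ → ℝ} {F' : ℝ} {z : Fin n → ℂ} (h : HasDerivAt F F' (uu z)) (j : Fin n) :
    dz j (fun w => (F (uu w) : ℂ)) z = F' * (starRingEnd ℂ) (z j) := by
  have := ofRealCLM.hasFDerivAt.comp z (hasFDerivAt_rad h)
  rw [dz_of (f := fun w => (F (uu w) : ℂ)) this]
  apply Complex.ext <;> simp [fderiv_uu_one, fderiv_uu_I] <;> ring

lemma dzbar_rad {F : ℝ → ℝ} {F' : ℝ} {z : Fin n → ℂ} (h : HasDerivAt F F' (uu z)) (j : Fin n) :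
    dzbar j (fun w => (F (uu w) : ℂ)) z = F' * z j := by
  have := ofRealCLM.hasFDerivAt.comp z (hasFDerivAt_rad h)
  rw [dzbar_of (f := fun w => (F (uu w) : ℂ)) this]
  apply Complex.ext <;> simp [fderiv_uu_one, fderiv_uu_I] <;> ring

lemma divg_rad {F : ℝ → ℝ} {F' : ℝ} {z : Fin n → ℂ} (h : HasDerivAt F F' (uu z)) :
    divg (fun w => F (uu w) • w) z = 2 * uu z * F' + 2 * n * F (uu z) := by
  have hre : ∀ j, HasFDerivAt (fun w : Fin n → ℂ => (w j).re)
      (reCLM.comp (ContinuousLinearMap.proj (R := ℝ) (φ := fun _ : Fin n => ℂ) j)) z :=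
    fun j => reCLM.hasFDerivAt.comp z (hasFDerivAt_apply j z)
  have him : ∀ j, HasFDerivAt (fun w : Fin n → ℂ => (w j).im)
      (imCLM.comp (ContinuousLinearMap.proj (R := ℝ) (φ := fun _ : Fin n => ℂ) j)) z :=
    fun j => imCLM.hasFDerivAt.comp z (hasFDerivAt_apply j z)
  have a := fun j => ((hasFDerivAt_rad h).fun_mul (hre j)).fderiv
  have b := fun j => ((hasFDerivAt_rad h).fun_mul (him j)).fderiv
  simp only [divg, Pi.smul_apply, smul_re, smul_im, smul_eq_mul, a, b]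
  simp only [add_apply, smul_apply, smul_eq_mul,
    fderiv_uu_one, fderiv_uu_I, ContinuousLinearMap.comp_apply, ContinuousLinearMap.proj_apply,
    Pi.single_eq_same, reCLM_apply, imCLM_apply, one_re, I_im]
  have : ∀ j, F (uu z) * 1 + (z j).re * (F' * (2 * (z j).re)) +
      (F (uu z) * 1 + (z j).im * (F' * (2 * (z j).im))) =
      2 * F' * ((z j).re * (z j).re + (z j).im * (z j).im) + 2 * F (uu z) := fun j => by ring
  simp only [this, Finset.sum_add_distrib, ← Finset.mul_sum]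
  rw [← Finset.sum_add_distrib, ← uu_eq]
  simp
  ring

lemma cs_uu (z v : Fin n → ℂ) : ‖∑ j, (starRingEnd ℂ) (z j) * v j‖ ^ 2 ≤ uu z * uu v := by
  refine le_trans ?_ (Finset.sum_mul_sq_le_sq_mul_sq Finset.univ (fun j => ‖z j‖) fun j => ‖v j‖)
  refine pow_le_pow_left₀ (norm_nonneg _) ((norm_sum_le _ _).trans_eq ?_) 2
  simp

lemma le_uu (v : Fin n → ℂ) (j : Fin n) : ‖v j‖ ^ 2 ≤ uu v :=
  Finset.single_le_sum (f := fun j => ‖v j‖ ^ 2) (fun _ _ => sq_nonneg _) (Finset.mem_univ j)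

lemma uu_nonneg (v : Fin n → ℂ) : 0 ≤ uu v := Finset.sum_nonneg fun _ _ => sq_nonneg _

end Pool.Agent.Lib.Kahler
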