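import Mathlib

namespace Pool.Agent.Lib.Kahler

open scoped ComplexOrder ContDiff

/-- Wirtinger derivative `∂f/∂z_j = (∂f/∂x_j - i ∂f/∂y_j) / 2`. -/
noncomputable def dz {n : ℕ} (j : Fin n) (f : (Fin n → ℂ) → ℂ) (z : Fin n → ℂ) : ℂ :=
  (fderiv ℝ f z (Pi.single j 1) - Complex.I * fderiv ℝ f z (Pi.single j Complex.I)) / 2

/-- Wirtinger derivative `∂f/∂zbar_j = (∂f/∂x_j + i ∂f/∂y_j) / 2`. -/
noncomputable def dzbar {n : ℕ} (j : Fin n) (f : (Fin n → ℂ) → ℂ) (z : Fin n → ℂ) : ℂ :=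
  (fderiv ℝ f z (Pi.single j 1) + Complex.I * fderiv ℝ f z (Pi.single j Complex.I)) / 2

/-- `g z j k = g_{j kbar}(z)` are the coefficients of a Kaehler metric on the open set `X`:
smooth, Hermitian positive definite, and with closed fundamental form. -/
def IsKahler {n : ℕ} (X : Set (Fin n → ℂ)) (g : (Fin n → ℂ) → Matrix (Fin n) (Fin n) ℂ) : Prop :=
  (∀ j k, ContDiffOn ℝ ∞ (fun z => g z j k) X) ∧ (∀ z ∈ X, (g z).PosDef) ∧
    ∀ z ∈ X, ∀ j k l, dz l (fun w => g w j k) z = dz j (fun w => g w l k) z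

/-- The Riemannian metric `g(v, v) = ∑ g_{j kbar} v_j conj(v_k)`. -/
noncomputable def normSq {n : ℕ} (g : (Fin n → ℂ) → Matrix (Fin n) (Fin n) ℂ)
    (z v : Fin n → ℂ) : ℝ :=
  (∑ j, ∑ k, g z j k * v j * (starRingEnd ℂ) (v k)).re

/-- The Riemannian Ricci curvature `Ric(v, v) = -2 ∑ ∂_j ∂_kbar (log det g) v_j conj(v_k)`. -/
noncomputable def ricci {n : ℕ} (g : (Fin n → ℂ) → Matrix (Fin n) (Fin n) ℂ)
    (z v : Fin n → ℂ) : ℝ :=
  -2 * (∑ j, ∑ k, dz j (dzbar k fun w => (Real.log (g w).det.re : ℂ)) z *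
    v j * (starRingEnd ℂ) (v k)).re

/-- Squared length of the Riemannian gradient of a real function. -/
noncomputable def gradSq {n : ℕ} (g : (Fin n → ℂ) → Matrix (Fin n) (Fin n) ℂ)
    (φ : (Fin n → ℂ) → ℝ) (z : Fin n → ℂ) : ℝ :=
  4 * (∑ j, ∑ k, (starRingEnd ℂ) (dz j (fun w => (φ w : ℂ)) z) * (g z)⁻¹ j k *
    dz k (fun w => (φ w : ℂ)) z).re

/-- Bottom of the spectrum: infimum of the Rayleigh quotients of smooth compactly supported
test functions, with volume form `det g` times Lebesgue measure. -/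
noncomputable def lambda0 {n : ℕ} (X : Set (Fin n → ℂ))
    (g : (Fin n → ℂ) → Matrix (Fin n) (Fin n) ℂ) : ℝ :=
  sInf {r | ∃ φ : (Fin n → ℂ) → ℝ, ContDiff ℝ ∞ φ ∧ HasCompactSupport φ ∧ tsupport φ ⊆ X ∧ φ ≠ 0 ∧
    r = (∫ z in X, gradSq g φ z * (g z).det.re) / ∫ z in X, φ z ^ 2 * (g z).det.re}

/-- Riemannian distance: infimum of the lengths of `C^1` paths in `X` from `p` to `q`. -/
noncomputable def rdist {n : ℕ} (X : Set (Fin n → ℂ))
    (g : (Fin n → ℂ) → Matrix (Fin n) (Fin n) ℂ) (p q : Fin n → ℂ) : ENNReal :=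
  ⨅ (γ : ℝ → Fin n → ℂ) (_ : ContDiffOn ℝ 1 γ (Set.Icc 0 1) ∧ Set.MapsTo γ (Set.Icc 0 1) X ∧
      γ 0 = p ∧ γ 1 = q),
    ∫⁻ t in Set.Icc (0 : ℝ) 1,
      ENNReal.ofReal √(normSq g (γ t) (derivWithin γ (Set.Icc 0 1) t))

/-- Metric completeness: Cauchy sequences for the Riemannian distance converge in `X`. -/
def IsCompleteMetric {n : ℕ} (X : Set (Fin n → ℂ))
    (g : (Fin n → ℂ) → Matrix (Fin n) (Fin n) ℂ) : Prop :=
  ∀ u : ℕ → Fin n → ℂ, (∀ m, u m ∈ X) →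
    (∀ ε : ENNReal, 0 < ε → ∃ N, ∀ m ≥ N, ∀ m' ≥ N, rdist X g (u m) (u m') < ε) →
    ∃ p ∈ X, Filter.Tendsto (fun m => rdist X g (u m) p) Filter.atTop (nhds 0)

end Pool.Agent.Lib.Kahler
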