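import Pool.Agent.Lib.Kahler.Defs

namespace Pool.Agent.Lib.Kahler

open Set Filter Topology MeasureTheory

variable {n : ℕ} {X : Set (Fin n → ℂ)} {g : (Fin n → ℂ) → Matrix (Fin n) (Fin n) ℂ}

/-- functions with gradient at most one are 1-Lipschitz for the Riemannian distance -/
lemma le_rdist (hX : IsOpen X) {f : (Fin n → ℂ) → ℝ} (hf : ContDiffOn ℝ 1 f X)
    (h : ∀ z ∈ X, ∀ v, (fderiv ℝ f z v) ^ 2 ≤ normSq g z v) (p q : Fin n → ℂ) :
    ENNReal.ofReal |f q - f p| ≤ rdist X g p q := by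
  refine le_iInf₂ fun γ ⟨hγ, hm, h0, h1⟩ => ?_
  have hc : ContDiffOn ℝ 1 (f ∘ γ) (Icc 0 1) := hf.comp hγ hm
  have := enorm_sub_le_lintegral_derivWithin_Icc_of_contDiffOn_Icc hc zero_le_one
  simp only [Function.comp, h0, h1] at this
  rw [← Real.norm_eq_abs, ofReal_norm]
  refine this.trans (setLIntegral_mono' measurableSet_Icc fun t ht => ?_)
  have hd : DifferentiableAt ℝ f (γ t) :=
    (hf.contDiffAt (hX.mem_nhds (hm ht))).differentiableAt one_ne_zero
  have hd2 : DifferentiableWithinAt ℝ γ (Icc 0 1) t := (hγ t ht).differentiableWithinAt one_ne_zero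
  have e : derivWithin (f ∘ γ) (Icc 0 1) t =
      fderiv ℝ f (γ t) (derivWithin γ (Icc 0 1) t) :=
    (hd.hasFDerivAt.comp_hasDerivWithinAt t hd2.hasDerivWithinAt).derivWithin
      (uniqueDiffOn_Icc zero_lt_one t ht)
  rw [e, ← ofReal_norm, Real.norm_eq_abs]
  exact ENNReal.ofReal_le_ofReal (Real.abs_le_sqrt (h _ (hm ht) _))

lemma normSq_le (z v : Fin n → ℂ) {M : ℝ} (hM : ∀ j k, ‖g z j k‖ ≤ M) :
    normSq g z v ≤ (n : ℝ) ^ 2 * M * ‖v‖ ^ 2 := by
  refine (Complex.re_le_norm _).trans ((norm_sum_le _ _).trans ?_)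
  calc ∑ j, ‖∑ k, g z j k * v j * (starRingEnd ℂ) (v k)‖
      ≤ ∑ _j : Fin n, ∑ _k : Fin n, M * ‖v‖ * ‖v‖ := by
        refine Finset.sum_le_sum fun j _ => (norm_sum_le _ _).trans
          (Finset.sum_le_sum fun k _ => ?_)
        rw [norm_mul, norm_mul, Complex.norm_conj]
        have h0 : 0 ≤ M := (norm_nonneg _).trans (hM j k)
        gcongr
        · exact hM j k
        · exact norm_le_pi_norm v j
        · exact norm_le_pi_norm v k
    _ = _ := by simp; ring

lemma tendsto_rdist (hX : IsOpen X) (hg : ∀ j k, ContinuousOn (fun z => g z j k) X)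
    {p : Fin n → ℂ} (hp : p ∈ X) {u : ℕ → Fin n → ℂ} (hu : Tendsto u atTop (𝓝 p)) :
    Tendsto (fun m => rdist X g (u m) p) atTop (𝓝 0) := by
  obtain ⟨r, hr, hb⟩ := Metric.nhds_basis_closedBall.mem_iff.1 (hX.mem_nhds hp)
  have hG : ContinuousOn (fun z => fun jk : Fin n × Fin n => g z jk.1 jk.2)
      (Metric.closedBall p r) := continuousOn_pi.2 fun jk => (hg jk.1 jk.2).mono hb
  obtain ⟨M, hM⟩ := (isCompact_closedBall p r).exists_bound_of_continuousOn hG
  have hM' : ∀ z ∈ Metric.closedBall p r, ∀ j k, ‖g z j k‖ ≤ M := fun z hz j k =>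
    (norm_le_pi_norm (fun jk : Fin n × Fin n => g z jk.1 jk.2) (j, k)).trans (hM z hz)
  have lim : Tendsto (fun m => ENNReal.ofReal √((n : ℝ) ^ 2 * M * ‖p - u m‖ ^ 2)) atTop (𝓝 0) := by
    have : Continuous fun w : Fin n → ℂ => ENNReal.ofReal √((n : ℝ) ^ 2 * M * ‖p - w‖ ^ 2) :=
      ENNReal.continuous_ofReal.comp (by fun_prop)
    simpa [Function.comp_def] using (this.tendsto p).comp hu
  refine tendsto_of_tendsto_of_tendsto_of_le_of_le' tendsto_const_nhds lim
    (Eventually.of_forall fun _ => zero_le) ?_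
  filter_upwards [hu (Metric.closedBall_mem_nhds p hr)] with m hm
  have hseg : ∀ t ∈ Icc (0 : ℝ) 1, u m + t • (p - u m) ∈ Metric.closedBall p r := fun t ht =>
    (convex_closedBall p r).add_smul_sub_mem hm (Metric.mem_closedBall_self hr.le) ht
  refine (iInf₂_le (fun t : ℝ => u m + t • (p - u m))
    ⟨by fun_prop, fun t ht => hb (hseg t ht), by simp, by simp⟩).trans ?_
  calc _ ≤ ∫⁻ _t in Icc (0 : ℝ) 1, ENNReal.ofReal √((n : ℝ) ^ 2 * M * ‖p - u m‖ ^ 2) := by
        refine setLIntegral_mono' measurableSet_Icc fun t ht => ?_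
        have e : derivWithin (fun t : ℝ => u m + t • (p - u m)) (Icc 0 1) t = p - u m := by
          have : HasDerivAt (fun t : ℝ => u m + t • (p - u m)) (p - u m) t := by
            simpa using ((hasDerivAt_id t).smul_const (p - u m)).const_add (u m)
          exact this.hasDerivWithinAt.derivWithin (uniqueDiffOn_Icc zero_lt_one t ht)
        rw [e]
        exact ENNReal.ofReal_le_ofReal (Real.sqrt_le_sqrt (normSq_le _ _ (hM' _ (hseg t ht))))
    _ = _ := by simp

lemma complete_of (hX : IsOpen X) (hg : ∀ j k, ContinuousOn (fun z => g z j k) X)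
    (hlow : ∀ z ∈ X, ∀ v j, ‖v j‖ ^ 2 ≤ normSq g z v)
    (hcl : ∀ q ∈ X, closure {z | z ∈ X ∧ rdist X g q z < 1} ⊆ X) : IsCompleteMetric X g := by
  intro u hu hc
  have key : ∀ (L : ℂ →L[ℝ] ℝ), (∀ w, |L w| ≤ ‖w‖) → ∀ j p q,
      ENNReal.ofReal |L (q j) - L (p j)| ≤ rdist X g p q := by
    intro L hL j p q
    let f : (Fin n → ℂ) →L[ℝ] ℝ := L.comp (ContinuousLinearMap.proj j)
    refine le_rdist hX (f := f) f.contDiff.contDiffOn (fun z hz v => ?_) p q
    rw [f.fderiv]
    refine le_trans ?_ (hlow z hz v j)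
    rw [← sq_abs]
    exact pow_le_pow_left₀ (abs_nonneg _) (hL (v j)) 2
  have hcau : CauchySeq u := by
    rw [Metric.cauchySeq_iff]
    intro ε hε
    obtain ⟨N, hN⟩ := hc (ENNReal.ofReal (ε / 2)) (by simpa using hε)
    refine ⟨N, fun m hm m' hm' => ?_⟩
    rw [dist_pi_lt_iff hε]
    intro j
    have h1 := (key Complex.reCLM Complex.abs_re_le_norm j _ _).trans_lt (hN m' hm' m hm)
    have h2 := (key Complex.imCLM Complex.abs_im_le_norm j _ _).trans_lt (hN m' hm' m hm)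
    rw [ENNReal.ofReal_lt_ofReal_iff (by linarith)] at h1 h2
    rw [dist_eq_norm]
    refine (Complex.norm_le_abs_re_add_abs_im _).trans_lt ?_
    simp only [Complex.reCLM_apply, Complex.imCLM_apply] at h1 h2
    simp only [Complex.sub_re, Complex.sub_im]
    linarith
  obtain ⟨p, hp⟩ := cauchySeq_tendsto_of_complete hcau
  obtain ⟨N, hN⟩ := hc 1 one_pos
  have hpX : p ∈ X := by
    refine hcl (u N) (hu N) (mem_closure_of_tendsto hp ?_)
    filter_upwards [eventually_ge_atTop N] with m hm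
    exact ⟨hu m, hN N le_rfl m hm⟩
  exact ⟨p, hpX, tendsto_rdist hX hg hpX hp⟩

end Pool.Agent.Lib.Kahler
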