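import Pool.Agent.Lib.Kahler.Defs

namespace Pool.Agent.Lib.Kahler

open Set Filter Topology MeasureTheory Complex Matrix
open scoped ComplexOrder ContDiff

variable {n : ℕ} {X : Set (Fin n → ℂ)} {g : (Fin n → ℂ) → Matrix (Fin n) (Fin n) ℂ}

lemma dz_of {f : (Fin n → ℂ) → ℂ} {f' : (Fin n → ℂ) →L[ℝ] ℂ} {z : Fin n → ℂ}
    (h : HasFDerivAt f f' z) (j : Fin n) :
    dz j f z = (f' (Pi.single j 1) - I * f' (Pi.single j I)) / 2 := by rw [dz, h.fderiv]

lemma dzbar_of {f : (Fin n → ℂ) → ℂ} {f' : (Fin n → ℂ) →L[ℝ] ℂ} {z : Fin n → ℂ}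
    (h : HasFDerivAt f f' z) (j : Fin n) :
    dzbar j f z = (f' (Pi.single j 1) + I * f' (Pi.single j I)) / 2 := by rw [dzbar, h.fderiv]

lemma dz_congr {f f' : (Fin n → ℂ) → ℂ} {z : Fin n → ℂ} (h : f =ᶠ[𝓝 z] f') (j : Fin n) :
    dz j f z = dz j f' z := by rw [dz, dz, h.fderiv_eq]

lemma dzbar_congr {f f' : (Fin n → ℂ) → ℂ} {z : Fin n → ℂ} (h : f =ᶠ[𝓝 z] f') (j : Fin n) :
    dzbar j f z = dzbar j f' z := by rw [dzbar, dzbar, h.fderiv_eq]

lemma dz_real {φ : (Fin n → ℂ) → ℝ} {z : Fin n → ℂ} (h : DifferentiableAt ℝ φ z) (j : Fin n) :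
    dz j (fun w => (φ w : ℂ)) z =
      ((fderiv ℝ φ z (Pi.single j 1) : ℂ) - I * (fderiv ℝ φ z (Pi.single j I) : ℂ)) / 2 := by
  have := ofRealCLM.hasFDerivAt.comp z h.hasFDerivAt
  exact dz_of this j

lemma clm_decomp (L : (Fin n → ℂ) →L[ℝ] ℝ) (v : Fin n → ℂ) :
    L v = ∑ j, ((v j).re * L (Pi.single j 1) + (v j).im * L (Pi.single j I)) := by
  have : v = ∑ j, ((v j).re • (Pi.single j 1 : Fin n → ℂ) + (v j).im • (Pi.single j I : Fin n → ℂ)) := by
    funext k
    rw [Finset.sum_apply, Finset.sum_eq_single k]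
    · simp
    · intro b _ hb; simp [hb.symm]
    · simp
  conv_lhs => rw [this]
  simp only [map_sum, map_add, map_smul, smul_eq_mul]

lemma fderiv_eq_dz {φ : (Fin n → ℂ) → ℝ} {z : Fin n → ℂ} (h : DifferentiableAt ℝ φ z)
    (v : Fin n → ℂ) : fderiv ℝ φ z v = 2 * (∑ j, dz j (fun w => (φ w : ℂ)) z * v j).re := by
  rw [clm_decomp, re_sum, Finset.mul_sum]
  refine Finset.sum_congr rfl fun j _ => ?_
  rw [dz_real h]
  simp
  ring

lemma cs_posDef {G : Matrix (Fin n) (Fin n) ℂ} (hG : G.PosDef) (p v : Fin n → ℂ) :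
    4 * (∑ j, p j * v j).re - (∑ j, ∑ k, G j k * v j * (starRingEnd ℂ) (v k)).re ≤
      4 * (∑ j, ∑ k, (starRingEnd ℂ) (p j) * G⁻¹ j k * p k).re := by
  set q : Fin n → ℂ := G⁻¹ *ᵥ p with hq
  have hGq : G *ᵥ q = p := by
    rw [hq, mulVec_mulVec, mul_nonsing_inv _ ((isUnit_iff_isUnit_det _).1 hG.isUnit), one_mulVec]
  set w : Fin n → ℂ := star v with hw
  have h0 := hG.posSemidef.re_dotProduct_nonneg ((2 : ℂ) • q - w)
  have e1 : star q ⬝ᵥ G *ᵥ w = star p ⬝ᵥ w := by
    have : star p = star q ᵥ* G := by rw [← hGq, star_mulVec (M := G), hG.isHermitian.eq]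
    rw [dotProduct_mulVec, this]
  have e2 : (star q ⬝ᵥ p).re = (star p ⬝ᵥ q).re := by
    rw [star_dotProduct]; simp
  have e3 : (star p ⬝ᵥ w).re = (star w ⬝ᵥ p).re := by
    rw [star_dotProduct]; simp
  have a1 : ∑ j, p j * v j = star w ⬝ᵥ p := by
    simp [hw, dotProduct, mul_comm]
  have a2 : ∑ j, ∑ k, G j k * v j * (starRingEnd ℂ) (v k) = star w ⬝ᵥ G *ᵥ w := by
    simp only [hw, dotProduct, mulVec, Finset.mul_sum, Pi.star_apply, RCLike.star_def, conj_conj]
    exact Finset.sum_congr rfl fun j _ => Finset.sum_congr rfl fun k _ => by ring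
  have a3 : ∑ j, ∑ k, (starRingEnd ℂ) (p j) * G⁻¹ j k * p k = star p ⬝ᵥ q := by
    simp only [hq, dotProduct, mulVec, Finset.mul_sum, Pi.star_apply, RCLike.star_def]
    exact Finset.sum_congr rfl fun j _ => Finset.sum_congr rfl fun k _ => by ring
  rw [a1, a2, a3]
  simp only [mulVec_sub, mulVec_smul, hGq, star_sub, star_smul, sub_dotProduct, dotProduct_sub,
    smul_dotProduct, dotProduct_smul, e1, RCLike.re_to_complex, smul_eq_mul, sub_re, mul_re,
    star_ofNat, re_ofNat, im_ofNat] at h0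
  linarith

lemma gradSq_ge {φ : (Fin n → ℂ) → ℝ} {z : Fin n → ℂ} (h : DifferentiableAt ℝ φ z)
    (hG : (g z).PosDef) (v : Fin n → ℂ) : 2 * fderiv ℝ φ z v - normSq g z v ≤ gradSq g φ z := by
  rw [fderiv_eq_dz h, normSq, gradSq]
  have := cs_posDef hG (fun j => dz j (fun w => (φ w : ℂ)) z) v
  linarith

lemma gradSq_nonneg {φ : (Fin n → ℂ) → ℝ} {z : Fin n → ℂ} (h : DifferentiableAt ℝ φ z)
    (hG : (g z).PosDef) : 0 ≤ gradSq g φ z := by
  simpa [normSq] using gradSq_ge h hG 0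

lemma normSq_smul (z v : Fin n → ℂ) (c : ℝ) : normSq g z (c • v) = c ^ 2 * normSq g z v := by
  simp only [normSq, Pi.smul_apply, real_smul, map_mul, conj_ofReal]
  rw [← re_ofReal_mul, Finset.mul_sum]
  congr 1
  refine Finset.sum_congr rfl fun j _ => ?_
  rw [Finset.mul_sum]
  exact Finset.sum_congr rfl fun k _ => by push_cast; ring

lemma det_re_pos {G : Matrix (Fin n) (Fin n) ℂ} (hG : G.PosDef) : 0 < G.det.re :=
  (Complex.pos_iff.1 hG.det_pos).1

lemma integrable_of_supp {K : Set (Fin n → ℂ)} (hK : IsCompact K) (hKX : K ⊆ X)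
    {F : (Fin n → ℂ) → ℝ} (hF : ContinuousOn F X) (h0 : ∀ z ∉ K, F z = 0) : Integrable F := by
  have := (hF.mono hKX).integrableOn_compact (μ := volume) hK
  exact (integrableOn_iff_integrable_of_support_subset
    (fun z hz => by_contra fun h => hz (h0 z h))).1 this

lemma contOn_det (hg : ∀ j k, ContinuousOn (fun z => g z j k) X) :
    ContinuousOn (fun z => (g z).det.re) X := by
  have : ContinuousOn g X := continuousOn_pi.2 fun j => continuousOn_pi.2 fun k => hg j k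
  exact continuous_re.comp_continuousOn
    ((continuous_id.matrix_det).comp_continuousOn this)

lemma contOn_gradSq (hg : ∀ j k, ContinuousOn (fun z => g z j k) X) (hp : ∀ z ∈ X, (g z).PosDef)
    {φ : (Fin n → ℂ) → ℝ} (hφ : ContDiff ℝ ∞ φ) : ContinuousOn (gradSq g φ) X := by
  have hG : ContinuousOn g X := continuousOn_pi.2 fun j => continuousOn_pi.2 fun k => hg j k
  have hinv : ContinuousOn (fun z => (g z)⁻¹) X := by
    intro z hz
    have : ContinuousAt Inv.inv (g z) := by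
      apply continuousAt_matrix_inv
      rw [Ring.inverse_eq_inv']
      exact continuousAt_inv₀ (hp z hz).det_pos.ne'
    exact this.comp_continuousWithinAt (hG z hz)
  have hd : ∀ j, Continuous (dz j fun w => (φ w : ℂ)) := by
    intro j
    have e : (dz j fun w => (φ w : ℂ)) = fun z =>
      ((fderiv ℝ φ z (Pi.single j 1) : ℂ) - I * (fderiv ℝ φ z (Pi.single j I) : ℂ)) / 2 :=
      funext fun z => dz_real (hφ.differentiable (by simp) z) j
    have := hφ.continuous_fderiv (by simp)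
    rw [e]
    fun_prop
  unfold gradSq
  refine continuousOn_const.mul (continuous_re.comp_continuousOn ?_)
  refine continuousOn_finsetSum _ fun j _ => continuousOn_finsetSum _ fun k _ => ?_
  refine ContinuousOn.mul (ContinuousOn.mul ?_ ?_) (hd k).continuousOn
  · exact (continuous_conj.comp (hd j)).continuousOn
  · exact continuousOn_pi.1 (continuousOn_pi.1 hinv j) k

lemma gradSq_eq_zero {φ : (Fin n → ℂ) → ℝ} {z : Fin n → ℂ} (hz : z ∉ tsupport φ) :
    gradSq g φ z = 0 := by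
  have h : φ =ᶠ[𝓝 z] 0 := notMem_tsupport_iff_eventuallyEq.1 hz
  have : ∀ j, dz j (fun w => (φ w : ℂ)) z = 0 := by
    intro j
    have h2 : (fun w => (φ w : ℂ)) =ᶠ[𝓝 z] fun _ => 0 := by
      filter_upwards [h] with w hw; simp [hw]
    rw [dz_congr h2]; simp [dz]
  simp [gradSq, this]

/-- Euclidean divergence -/
noncomputable def divg (W : (Fin n → ℂ) → Fin n → ℂ) (z : Fin n → ℂ) : ℝ :=
  ∑ j, (fderiv ℝ (fun w => (W w j).re) z (Pi.single j 1) +
    fderiv ℝ (fun w => (W w j).im) z (Pi.single j I))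

lemma ibp_dir (hX : IsOpen X) {f ψ : (Fin n → ℂ) → ℝ} (hf : ContDiffOn ℝ 1 f X)
    (hψ : ContDiff ℝ 1 ψ) (hc : HasCompactSupport ψ) (hs : tsupport ψ ⊆ X) (e : Fin n → ℂ) :
    Integrable (fun z => f z * fderiv ℝ ψ z e) ∧ Integrable (fun z => fderiv ℝ f z e * ψ z) ∧
    ∫ z, f z * fderiv ℝ ψ z e = - ∫ z, fderiv ℝ f z e * ψ z := by
  have c1 : ContinuousOn (fun z => fderiv ℝ f z e) X :=
    (hf.continuousOn_fderiv_of_isOpen hX le_rfl).clm_apply continuousOn_const
  have c2 : Continuous (fun z => fderiv ℝ ψ z e) :=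
    (hψ.continuous_fderiv one_ne_zero).clm_apply continuous_const
  have i1 : Integrable (fun z => f z * fderiv ℝ ψ z e) := by
    refine integrable_of_supp hc hs (hf.continuousOn.mul c2.continuousOn) fun z hz => ?_
    rw [(notMem_tsupport_iff_eventuallyEq.1 hz).fderiv_eq]; simp
  have i2 : Integrable (fun z => fderiv ℝ f z e * ψ z) := by
    refine integrable_of_supp hc hs (c1.mul hψ.continuous.continuousOn) fun z hz => ?_
    rw [image_eq_zero_of_notMem_tsupport hz, mul_zero]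
  have i3 : Integrable (fun z => f z * ψ z) := by
    refine integrable_of_supp hc hs (hf.continuousOn.mul hψ.continuous.continuousOn) fun z hz => ?_
    rw [image_eq_zero_of_notMem_tsupport hz, mul_zero]
  refine ⟨i1, i2, integral_mul_fderiv_eq_neg_fderiv_mul_of_integrable i2 i1 i3 ?_ ?_⟩
  · exact fun z hz => (hf.contDiffAt (hX.mem_nhds (hs hz))).differentiableAt one_ne_zero
  · exact fun z _ => hψ.differentiable one_ne_zero z

lemma ibp (hX : IsOpen X) {W : (Fin n → ℂ) → Fin n → ℂ} (hW : ContDiffOn ℝ 1 W X)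
    {ψ : (Fin n → ℂ) → ℝ} (hψ : ContDiff ℝ 1 ψ) (hc : HasCompactSupport ψ)
    (hs : tsupport ψ ⊆ X) :
    Integrable (fun z => fderiv ℝ ψ z (W z) + divg W z * ψ z) ∧
    ∫ z, (fderiv ℝ ψ z (W z) + divg W z * ψ z) = 0 := by
  have hre : ∀ j, ContDiffOn ℝ 1 (fun w => (W w j).re) X := fun j =>
    reCLM.contDiff.comp_contDiffOn (contDiffOn_pi.1 hW j)
  have him : ∀ j, ContDiffOn ℝ 1 (fun w => (W w j).im) X := fun j =>
    imCLM.contDiff.comp_contDiffOn (contDiffOn_pi.1 hW j)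
  have a := fun j => ibp_dir hX (hre j) hψ hc hs (Pi.single j 1)
  have b := fun j => ibp_dir hX (him j) hψ hc hs (Pi.single j I)
  have e : (fun z => fderiv ℝ ψ z (W z) + divg W z * ψ z) = fun z => ∑ j,
      (((W z j).re * fderiv ℝ ψ z (Pi.single j 1) +
        fderiv ℝ (fun w => (W w j).re) z (Pi.single j 1) * ψ z) +
      ((W z j).im * fderiv ℝ ψ z (Pi.single j I) +
        fderiv ℝ (fun w => (W w j).im) z (Pi.single j I) * ψ z)) := by
    funext z
    rw [clm_decomp, divg, Finset.sum_mul, ← Finset.sum_add_distrib]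
    exact Finset.sum_congr rfl fun j _ => by ring
  rw [e]
  have ia : ∀ j, Integrable fun z => (W z j).re * fderiv ℝ ψ z (Pi.single j 1) +
      fderiv ℝ (fun w => (W w j).re) z (Pi.single j 1) * ψ z := fun j => (a j).1.add (a j).2.1
  have ib : ∀ j, Integrable fun z => (W z j).im * fderiv ℝ ψ z (Pi.single j I) +
      fderiv ℝ (fun w => (W w j).im) z (Pi.single j I) * ψ z := fun j => (b j).1.add (b j).2.1
  have i : ∀ j, Integrable fun z => (((W z j).re * fderiv ℝ ψ z (Pi.single j 1) +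
        fderiv ℝ (fun w => (W w j).re) z (Pi.single j 1) * ψ z) +
      ((W z j).im * fderiv ℝ ψ z (Pi.single j I) +
        fderiv ℝ (fun w => (W w j).im) z (Pi.single j I) * ψ z)) := fun j => (ia j).add (ib j)
  refine ⟨integrable_finsetSum _ fun j _ => i j, ?_⟩
  rw [integral_finsetSum _ fun j _ => i j]
  refine Finset.sum_eq_zero fun j _ => ?_
  rw [integral_add (ia j) (ib j),
    integral_add (a j).1 (a j).2.1, integral_add (b j).1 (b j).2.1, (a j).2.2, (b j).2.2]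
  ring

lemma num_eq {φ : (Fin n → ℂ) → ℝ} (hs : tsupport φ ⊆ X) :
    ∫ z in X, gradSq g φ z * (g z).det.re = ∫ z, gradSq g φ z * (g z).det.re :=
  setIntegral_eq_integral_of_forall_compl_eq_zero fun z hz => by
    rw [gradSq_eq_zero fun h => hz (hs h), zero_mul]

lemma den_eq {φ : (Fin n → ℂ) → ℝ} (hs : tsupport φ ⊆ X) :
    ∫ z in X, φ z ^ 2 * (g z).det.re = ∫ z, φ z ^ 2 * (g z).det.re :=
  setIntegral_eq_integral_of_forall_compl_eq_zero fun z hz => by
    rw [image_eq_zero_of_notMem_tsupport fun h => hz (hs h)]; simp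

lemma den_pos (hX : IsOpen X) (hg : ∀ j k, ContinuousOn (fun z => g z j k) X)
    (hp : ∀ z ∈ X, (g z).PosDef) {φ : (Fin n → ℂ) → ℝ} (hφ : ContDiff ℝ ∞ φ)
    (hc : HasCompactSupport φ) (hs : tsupport φ ⊆ X) (h0 : φ ≠ 0) :
    0 < ∫ z, φ z ^ 2 * (g z).det.re := by
  have hsub : tsupport (fun z => φ z ^ 2 * (g z).det.re) ⊆ tsupport φ := by
    refine closure_mono fun z hz => ?_
    intro h
    apply hz
    simp [h]
  have hcont : Continuous fun z => φ z ^ 2 * (g z).det.re :=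
    ((hφ.continuous.pow 2).continuousOn.mul (contOn_det hg)).continuous_of_tsupport_subset hX
      (hsub.trans hs)
  obtain ⟨z, hz⟩ := Function.ne_iff.1 h0
  have hzX : z ∈ X := hs (subset_tsupport _ hz)
  refine hcont.integral_pos_of_hasCompactSupport_nonneg_nonzero
    (hc.of_isClosed_subset (isClosed_tsupport _) hsub) (fun w => ?_) (x := z) ?_
  · by_cases hw : w ∈ X
    · exact mul_nonneg (sq_nonneg _) (det_re_pos (hp w hw)).le
    · simp [image_eq_zero_of_notMem_tsupport fun h => hw (hs h)]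
  · exact mul_ne_zero (pow_ne_zero 2 hz) (det_re_pos (hp z hzX)).ne'

lemma rayleigh_ge (hX : IsOpen X) (hg : ∀ j k, ContinuousOn (fun z => g z j k) X)
    (hp : ∀ z ∈ X, (g z).PosDef) (V W : (Fin n → ℂ) → Fin n → ℂ) (hW : ContDiffOn ℝ 1 W X)
    (hVW : ∀ z ∈ X, W z = (g z).det.re • V z) (c : ℝ)
    (hc : ∀ z ∈ X, c * (g z).det.re ≤ - divg W z - (g z).det.re * normSq g z (V z))
    {φ : (Fin n → ℂ) → ℝ} (hφ : ContDiff ℝ ∞ φ) (hcs : HasCompactSupport φ)
    (hs : tsupport φ ⊆ X) :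
    c * ∫ z, φ z ^ 2 * (g z).det.re ≤ ∫ z, gradSq g φ z * (g z).det.re := by
  have hsub : tsupport (fun z => φ z ^ 2) ⊆ tsupport φ := by
    refine closure_mono fun z hz => ?_
    intro h
    apply hz
    simp [h]
  obtain ⟨i1, e1⟩ := ibp hX hW (ψ := fun z => φ z ^ 2) ((hφ.pow 2).of_le (by simp))
    (hcs.of_isClosed_subset (isClosed_tsupport _) hsub) (hsub.trans hs)
  have i2 : Integrable fun z => φ z ^ 2 * (g z).det.re :=
    integrable_of_supp hcs hs ((hφ.continuous.pow 2).continuousOn.mul (contOn_det hg))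
      fun z hz => by simp [image_eq_zero_of_notMem_tsupport hz]
  have i3 : Integrable fun z => gradSq g φ z * (g z).det.re :=
    integrable_of_supp hcs hs ((contOn_gradSq hg hp hφ).mul (contOn_det hg))
      fun z hz => by simp [gradSq_eq_zero hz]
  rw [← integral_const_mul, ← add_zero (∫ z, c * _), ← e1, ← integral_add (i2.const_mul c) i1]
  refine integral_mono ((i2.const_mul c).add i1) i3 fun z => ?_
  have hd : DifferentiableAt ℝ φ z := hφ.differentiable (by simp) z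
  have e2 : fderiv ℝ (fun z => φ z ^ 2) z (W z) = 2 * φ z * fderiv ℝ φ z (W z) := by
    rw [(hd.hasFDerivAt.pow 2).fderiv]; simp
  simp only [e2]
  by_cases hz : z ∈ X
  · have h1 := gradSq_ge (g := g) hd (hp z hz) (φ z • V z)
    rw [normSq_smul, map_smul] at h1
    have h2 := mul_le_mul_of_nonneg_right h1 (det_re_pos (hp z hz)).le
    have h3 := mul_le_mul_of_nonneg_left (hc z hz) (sq_nonneg (φ z))
    rw [hVW z hz, map_smul]
    simp only [smul_eq_mul] at h2 ⊢
    nlinarith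
  · have : z ∉ tsupport φ := fun h => hz (hs h)
    simp [image_eq_zero_of_notMem_tsupport this, gradSq_eq_zero this]

lemma lambda0_le (hp : ∀ z ∈ X, (g z).PosDef) {φ : (Fin n → ℂ) → ℝ} (hφ : ContDiff ℝ ∞ φ)
    (hcs : HasCompactSupport φ) (hs : tsupport φ ⊆ X) (h0 : φ ≠ 0) :
    lambda0 X g ≤ (∫ z, gradSq g φ z * (g z).det.re) / ∫ z, φ z ^ 2 * (g z).det.re := by
  refine csInf_le ⟨0, ?_⟩ ⟨φ, hφ, hcs, hs, h0, by rw [num_eq hs, den_eq hs]⟩
  rintro r ⟨ψ, hψ, -, hs', -, rfl⟩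
  rw [num_eq hs', den_eq hs']
  refine div_nonneg (integral_nonneg fun z => ?_) (integral_nonneg fun z => ?_)
  · by_cases hz : z ∈ X
    · exact mul_nonneg (gradSq_nonneg (hψ.differentiable (by simp) z) (hp z hz))
        (det_re_pos (hp z hz)).le
    · simp [gradSq_eq_zero fun h => hz (hs' h)]
  · by_cases hz : z ∈ X
    · exact mul_nonneg (sq_nonneg _) (det_re_pos (hp z hz)).le
    · simp [image_eq_zero_of_notMem_tsupport fun h => hz (hs' h)]

lemma le_lambda0 (hX : IsOpen X) (hne : X.Nonempty) (hg : ∀ j k, ContinuousOn (fun z => g z j k) X)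
    (hp : ∀ z ∈ X, (g z).PosDef) (V W : (Fin n → ℂ) → Fin n → ℂ) (hW : ContDiffOn ℝ 1 W X)
    (hVW : ∀ z ∈ X, W z = (g z).det.re • V z) (c : ℝ)
    (hc : ∀ z ∈ X, c * (g z).det.re ≤ - divg W z - (g z).det.re * normSq g z (V z)) :
    c ≤ lambda0 X g := by
  obtain ⟨x, hx⟩ := hne
  obtain ⟨φ, h1, h2, h3, -, h5⟩ := exists_contDiff_tsupport_subset (n := ⊤) (hX.mem_nhds hx)
  refine le_csInf ⟨_, φ, h3, h2, h1, fun h => by simp [h] at h5, rfl⟩ ?_
  rintro r ⟨ψ, hψ, hcs, hs, h0, rfl⟩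
  rw [num_eq hs, den_eq hs, le_div_iff₀ (den_pos hX hg hp hψ hcs hs h0)]
  exact rayleigh_ge hX hg hp V W hW hVW c hc hψ hcs hs

end Pool.Agent.Lib.Kahler
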